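import Pool.Agent.N728.QG.Def
import Pool.Agent.N49.QL.B4

set_option autoImplicit false

/-! # Project QG: subtask B4P (slowly varying weights, primes).

After `Pool/Agent/N49/QL/B4.lean` (the case `K = 4`, `D = 2`, without the truncation). -/

namespace Pool.Agent.N97.QG

open Finset Pool.Agent.N728.QL Pool.Agent.N728.QG Pool.Agent.N49.QL

noncomputable section

/-! ### One value of `u` -/

lemma sum_uN {c : ℤ} {z q u u0 v0 B r : ℕ} (N : ℕ) (hcz : c.natAbs ≤ z) (hu : 1 ≤ u) (hq : 1 ≤ q)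
    (hPP : PP 0 z ∣ q)
    (hqz : ∀ p : ℕ, p.Prime → p ∣ q → p ≤ z) (huu : u ≡ u0 [MOD q]) (hR : Rg 0 z ((u0 : ℤ) * v0 + c))
    (hr : (r : ℤ) ≡ (u : ℤ) * v0 + c [ZMOD ((u * q : ℕ) : ℤ)]) (G : ℕ → ℝ)
    (hG : ∀ v, |G v| ≤ 1) (hG' : ∀ v, |G (v + 1) - G v| ≤ Real.log B / B) (Em : ℝ)
    (hEm : ∀ V, V ≤ N → |th ((u : ℤ) * V + c).toNat (u * q) r -
      (((u : ℤ) * V + c).toNat : ℝ) / Nat.totient (u * q)| ≤ Em) :
    |∑ v ∈ (Icc 1 N).filter (fun v => v ≡ v0 [MOD q]), G v * EE z ((u : ℤ) * v + c)| ≤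
      (1 + N * (Real.log B / B)) * (Em + (Zc z + z + (VW 0 z)⁻¹)) + (VW 0 z)⁻¹ * hh z u * N / q := by
  have hW : 0 < (VW 0 z)⁻¹ := inv_pos.mpr (Pool.Agent.N728.QL.VW_pos 0 z)
  set W := (VW 0 z)⁻¹ with hWdef
  have hq0 : (0 : ℝ) < q := by exact_mod_cast hq
  have hlog : 0 ≤ Real.log B := Real.log_natCast_nonneg B
  have h1 : ∑ v ∈ (Icc 1 N).filter (fun v => v ≡ v0 [MOD q]), G v * EE z ((u : ℤ) * v + c) =
      ∑ v ∈ Icc 1 N, G v * ((if v ≡ v0 [MOD q] then EE z ((u : ℤ) * v + c) else 0) - W * hh z u / q) +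
      ∑ v ∈ Icc 1 N, G v * (W * hh z u / q) := by
    rw [← Finset.sum_add_distrib, Finset.sum_filter]
    apply Finset.sum_congr rfl
    intro v _
    split_ifs <;> ring
  rw [h1]
  have h2 := abel G (fun v => (if v ≡ v0 [MOD q] then EE z ((u : ℤ) * v + c) else 0) - W * hh z u / q)
    N (Real.log B / B) (Em + (Zc z + z + W)) (by positivity) hG hG'
    (fun V hV => (per_u hcz hu hq hPP hqz huu hR hr).trans (add_le_add (hEm V hV) le_rfl))
  have hh0 := hh_nonneg z u
  have h4 : |∑ v ∈ Icc 1 N, G v * (W * hh z u / q)| ≤ W * hh z u * N / q := by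
    calc |∑ v ∈ Icc 1 N, G v * (W * hh z u / q)| ≤ ∑ v ∈ Icc 1 N, |G v * (W * hh z u / q)| :=
          Finset.abs_sum_le_sum_abs _ _
      _ ≤ ∑ v ∈ Icc 1 N, W * hh z u / q := by
          apply Finset.sum_le_sum
          intro v _
          have h5 : 0 ≤ W * hh z u / q := by positivity
          rw [abs_mul, abs_of_nonneg h5]
          calc |G v| * (W * hh z u / q) ≤ 1 * (W * hh z u / q) := mul_le_mul_of_nonneg_right (hG v) h5
            _ = _ := one_mul _
      _ = W * hh z u * N / q := by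
          rw [Finset.sum_const, nsmul_eq_mul, Nat.card_Icc]
          push_cast
          ring
  calc |∑ v ∈ Icc 1 N, G v * ((if v ≡ v0 [MOD q] then EE z ((u : ℤ) * v + c) else 0) - W * hh z u / q) +
      ∑ v ∈ Icc 1 N, G v * (W * hh z u / q)| ≤ _ + _ := abs_add_le _ _
    _ ≤ _ := add_le_add h2 h4

lemma case_badN {c : ℤ} {z q u0 v0 : ℕ} (hz : 2 ≤ z) (hcz : c.natAbs ≤ z) (hPP : PP 0 z ∣ q)
    (hR : ¬ Rg 0 z ((u0 : ℤ) * v0 + c)) (N U1 U2 : ℕ) (G : ℕ → ℝ) (hG : ∀ v, |G v| ≤ 1) :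
    |∑ u ∈ (Ioc U1 U2).filter (fun u => u ≡ u0 [MOD q]), ∑ v ∈ (Icc 1 N).filter (fun v => v ≡ v0 [MOD q]),
      G v * EE z ((u : ℤ) * v + c)| ≤ (2 * z) * ((2 * z) * Real.log z) := by
  have hlz : 0 ≤ Real.log z := Real.log_natCast_nonneg z
  calc |∑ u ∈ (Ioc U1 U2).filter (fun u => u ≡ u0 [MOD q]),
        ∑ v ∈ (Icc 1 N).filter (fun v => v ≡ v0 [MOD q]), G v * EE z ((u : ℤ) * v + c)|
      ≤ ∑ u ∈ (Ioc U1 U2).filter (fun u => u ≡ u0 [MOD q]),
        ∑ v ∈ (Icc 1 N).filter (fun v => v ≡ v0 [MOD q]),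
          (if u ≤ 2 * z then (1 : ℝ) else 0) * ((if v ≤ 2 * z then (1 : ℝ) else 0) * Real.log z) := by
        refine (Finset.abs_sum_le_sum_abs _ _).trans (Finset.sum_le_sum ?_)
        intro u hu
        refine (Finset.abs_sum_le_sum_abs _ _).trans (Finset.sum_le_sum ?_)
        intro v hv
        rw [Finset.mem_filter, Finset.mem_Ioc] at hu
        rw [Finset.mem_filter, Finset.mem_Icc] at hv
        rw [abs_mul]
        calc |G v| * |EE z ((u : ℤ) * v + c)| ≤ 1 * |EE z ((u : ℤ) * v + c)| :=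
              mul_le_mul_of_nonneg_right (hG v) (abs_nonneg _)
          _ = |EE z ((u : ℤ) * v + c)| := one_mul _
          _ ≤ _ := EE_bad hz hcz hPP hR hu.2 hv.2 (by omega) hv.1.1
    _ = (∑ u ∈ (Ioc U1 U2).filter (fun u => u ≡ u0 [MOD q]), (if u ≤ 2 * z then (1 : ℝ) else 0)) *
        ((∑ v ∈ (Icc 1 N).filter (fun v => v ≡ v0 [MOD q]), (if v ≤ 2 * z then (1 : ℝ) else 0)) *
          Real.log z) := by
        rw [Finset.sum_mul]
        apply Finset.sum_congr rfl
        intro u _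
        rw [Finset.sum_mul, Finset.mul_sum]
    _ ≤ ((2 * z : ℕ) : ℝ) * (((2 * z : ℕ) : ℝ) * Real.log z) := by
        apply mul_le_mul
        · exact ind_sum _ _ (fun x hx => by rw [Finset.mem_filter, Finset.mem_Ioc] at hx; omega)
        · exact mul_le_mul_of_nonneg_right
            (ind_sum _ _ (fun x hx => by rw [Finset.mem_filter, Finset.mem_Icc] at hx; omega)) hlz
        · exact mul_nonneg (Finset.sum_nonneg (fun v _ => by split_ifs <;> norm_num)) hlz
        · positivity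
    _ = _ := by push_cast; ring

/-! ### Without truncation -/

lemma main_EE (h1 : S_BVH) (h2 : S_HZ) (c : ℤ) (hc : c ≠ 0) : ∃ (C1 : ℕ) (Kc : ℝ), 0 < Kc ∧ 1 ≤ C1 ∧
    ∀ (K D q z : ℕ) (ε : ℝ), 1 ≤ K → 1 ≤ D → 1 ≤ q → 2 ≤ z → c.natAbs ≤ z → 0 < ε → PP 0 z ∣ q →
    (∀ p : ℕ, p.Prime → p ∣ q → p ≤ z) → ∃ B0 : ℕ, ∀ B : ℕ, B0 ≤ B → ∀ T : ℕ,
    B ≤ T ^ D → (T : ℝ) * Real.log B ^ C1 ≤ B → ∀ (U1 U2 u0 v0 : ℕ) (G : ℕ → ℝ), U1 ≤ U2 → U2 ≤ T →
    (∀ v, |G v| ≤ 1) → (∀ v, |G (v + 1) - G v| ≤ Real.log B / B) →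
    |∑ u ∈ (Ioc U1 U2).filter (fun u => u ≡ u0 [MOD q]), ∑ v ∈ (Icc 1 (K * B)).filter (fun v => v ≡ v0 [MOD q]),
      G v * EE z ((u : ℤ) * v + c)| ≤
      Kc * K * (VW 0 z)⁻¹ / z / (q : ℝ) ^ 2 * (B * ((U2 : ℝ) - U1)) + ε * ((B : ℝ) * T) := by
  obtain ⟨KV, X0, hBV⟩ := h1 3
  obtain ⟨KH, hKH, hHZ⟩ := h2
  refine ⟨KV + 1, KH, hKH, by omega, ?_⟩
  intro K D q z ε hK hD1 hq hz hcz hε hPP hqz
  have hW : 0 < (VW 0 z)⁻¹ := inv_pos.mpr (Pool.Agent.N728.QL.VW_pos 0 z)
  set W := (VW 0 z)⁻¹ with hWdef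
  set C0 : ℝ := Zc z + z + W with hC0
  have hC0p : 0 < C0 := by have := Zc_nonneg z; positivity
  have hKr : (1 : ℝ) ≤ K := by exact_mod_cast hK
  have hK0 : (0 : ℝ) < K := by linarith
  obtain ⟨T0, hT0⟩ := Filter.eventually_atTop.mp (log_small (4 * K * W * KH) ε hε)
  obtain ⟨B0, hB0⟩ := Filter.eventually_atTop.mp
    (((log_small (4 * (K + 1) * C0) ε hε).and ((log_large (q ^ 2 * 3 ^ KV)).and
      ((log_large (4 * (K + 1) ^ 2 / ε)).and (log_large 1)))))
  obtain ⟨B1, hB1⟩ := exists_nat_gt ((2 * z) * ((2 * z) * Real.log z) / ε)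
  refine ⟨max B0 (max X0 (max (T0 ^ D + 1) (max (z + K + 5) B1))), ?_⟩
  intro B hB T hBT hTB U1 U2 u0 v0 G hU hUT hG hG'
  have hBB0 : B0 ≤ B := (le_max_left _ _).trans hB
  have hBX0 : X0 ≤ B := ((le_max_left _ _).trans (le_max_right _ _)).trans hB
  have hBT0 : T0 ^ D + 1 ≤ B :=
    (((le_max_left _ _).trans (le_max_right _ _)).trans (le_max_right _ _)).trans hB
  have hBz : z + K + 5 ≤ B :=
    ((((le_max_left _ _).trans (le_max_right _ _)).trans (le_max_right _ _)).trans (le_max_right _ _)).trans hB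
  have hBB1 : B1 ≤ B :=
    ((((le_max_right _ _).trans (le_max_right _ _)).trans (le_max_right _ _)).trans (le_max_right _ _)).trans hB
  obtain ⟨b1, b2, b3, b4⟩ := hB0 B hBB0
  have hTpos : 1 ≤ T := by
    rcases Nat.eq_zero_or_pos T with h | h
    · subst h
      rw [zero_pow (by omega)] at hBT
      omega
    · exact h
  have hTT0 : T0 ≤ T := by
    by_contra hcon
    have : T ^ D ≤ T0 ^ D := Nat.pow_le_pow_left (by omega) D
    omega
  have hB0' : (0 : ℝ) < B := by exact_mod_cast (by omega : 0 < B)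
  have hB1' : (1 : ℝ) ≤ B := by exact_mod_cast (by omega : 1 ≤ B)
  have hT1' : (1 : ℝ) ≤ T := by exact_mod_cast hTpos
  have hT0' : (0 : ℝ) < T := by linarith
  have hq0 : (0 : ℝ) < q := by exact_mod_cast hq
  have hz0 : (0 : ℝ) < z := by exact_mod_cast (by omega : 0 < z)
  have hU' : (U1 : ℝ) ≤ U2 := by exact_mod_cast hU
  have hmain0 : 0 ≤ KH * K * W / z / (q : ℝ) ^ 2 * (B * ((U2 : ℝ) - U1)) := by
    have : 0 ≤ (U2 : ℝ) - U1 := by linarith
    positivity
  by_cases hR : Rg 0 z ((u0 : ℤ) * v0 + c)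
  swap
  · refine (case_badN hz hcz hPP hR (K * B) U1 U2 G hG).trans ?_
    have h4 : (2 * z) * ((2 * z) * Real.log z) ≤ ε * (B * T) := by
      rw [div_lt_iff₀ hε] at hB1
      have h5 : (B1 : ℝ) ≤ B := by exact_mod_cast hBB1
      calc (2 * z) * ((2 * z) * Real.log z) ≤ B1 * ε := hB1.le
        _ ≤ B * ε := mul_le_mul_of_nonneg_right h5 hε.le
        _ ≤ (B * T) * ε := by
            apply mul_le_mul_of_nonneg_right _ hε.le
            exact le_mul_of_one_le_right hB0'.le hT1'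
        _ = ε * (B * T) := by ring
    linarith
  -- the coprime class
  set S := (Ioc U1 U2).filter (fun u => u ≡ u0 [MOD q]) with hS
  have hSmem : ∀ u ∈ S, 1 ≤ u ∧ u ≤ T ∧ u ≡ u0 [MOD q] := by
    intro u hu
    rw [hS, Finset.mem_filter, Finset.mem_Ioc] at hu
    exact ⟨by omega, by omega, hu.2⟩
  have hres : ∀ u : ℕ, ∃ r : ℕ, u ∈ S → ((r : ℤ) ≡ (u : ℤ) * v0 + c [ZMOD ((u * q : ℕ) : ℤ)] ∧
      Nat.Coprime r (u * q)) := by
    intro u
    by_cases hu : u ∈ S
    · obtain ⟨ha, hb, hd⟩ := hSmem u hu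
      obtain ⟨r, hr⟩ := exists_res hc hcz ha hq hPP hqz hd hR
      exact ⟨r, fun _ => hr⟩
    · exact ⟨0, fun h => absurd h hu⟩
  choose R hRr using hres
  have hmax : ∀ u : ℕ, ∃ V ∈ range (K * B + 1), ∀ V' ∈ range (K * B + 1),
      |th ((u : ℤ) * V' + c).toNat (u * q) (R u) - (((u : ℤ) * V' + c).toNat : ℝ) / Nat.totient (u * q)| ≤
      |th ((u : ℤ) * V + c).toNat (u * q) (R u) - (((u : ℤ) * V + c).toNat : ℝ) / Nat.totient (u * q)| := by
    intro u
    exact Finset.exists_max_image (range (K * B + 1)) (fun V : ℕ =>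
      |th ((u : ℤ) * V + c).toNat (u * q) (R u) - (((u : ℤ) * V + c).toNat : ℝ) / Nat.totient (u * q)|)
      ⟨0, by simp⟩
  choose Vs hVs1 hVs2 using hmax
  classical
  set r' : ℕ → ℕ := fun m => if m / q ∈ S ∧ m / q * q = m then R (m / q) else 1 with hr'
  set h' : ℕ → ℕ := fun m => if m / q ∈ S ∧ m / q * q = m then (((m / q : ℕ) : ℤ) * Vs (m / q) + c).toNat else 0
    with hh'
  set x : ℕ := K * B * T + z with hx
  have hxB : B ≤ x := by
    rw [hx]
    calc B = 1 * B * 1 := by ring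
      _ ≤ K * B * T := Nat.mul_le_mul (Nat.mul_le_mul_right B hK) hTpos
      _ ≤ K * B * T + z := Nat.le_add_right _ _
  have hlogB0 : 0 ≤ Real.log B := by linarith
  have hTleB : (T : ℝ) ≤ B := by
    refine le_trans ?_ hTB
    exact le_mul_of_one_le_right hT0'.le (one_le_pow₀ b4)
  have hxreal : (x : ℝ) ≤ (K + 1) * (B * T) := by
    rw [hx]
    push_cast
    have h5 : (z : ℝ) ≤ B := by exact_mod_cast (by omega : z ≤ B)
    have h6 : (B : ℝ) ≤ B * T := le_mul_of_one_le_right hB0'.le hT1'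
    linarith
  have hx3 : Real.log x ≤ 3 * Real.log B := by
    have h5 : (x : ℝ) ≤ B ^ 3 := by
      have h6 : (K : ℝ) + 1 ≤ B := by exact_mod_cast (by omega : K + 1 ≤ B)
      calc (x : ℝ) ≤ (K + 1) * (B * T) := hxreal
        _ ≤ B * (B * B) := by
            apply mul_le_mul h6 _ (by positivity) hB0'.le
            exact mul_le_mul_of_nonneg_left hTleB hB0'.le
        _ = B ^ 3 := by ring
    have h7 : (0 : ℝ) < x := by
      have : (B : ℝ) ≤ x := by exact_mod_cast hxB
      linarith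
    calc Real.log x ≤ Real.log ((B : ℝ) ^ 3) := Real.log_le_log h7 h5
      _ = 3 * Real.log B := by rw [Real.log_pow]; norm_num
  have hxlow : Real.log B ≤ Real.log x := Real.log_le_log hB0' (by exact_mod_cast hxB)
  have hD : ((T * q : ℕ) : ℝ) ^ 2 * Real.log x ^ KV ≤ x := by
    have h5 : Real.log x ^ KV ≤ (3 * Real.log B) ^ KV := pow_le_pow_left₀ (by linarith) hx3 KV
    have h6 : (x : ℝ) ≥ B * T := by
      rw [hx]; push_cast
      have h7 : (B : ℝ) * T ≤ K * (B * T) := le_mul_of_one_le_left (by positivity) hKr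
      nlinarith [mul_pos hB0' hT0']
    calc ((T * q : ℕ) : ℝ) ^ 2 * Real.log x ^ KV ≤ ((T * q : ℕ) : ℝ) ^ 2 * (3 * Real.log B) ^ KV :=
          mul_le_mul_of_nonneg_left h5 (by positivity)
      _ = T * ((T * Real.log B ^ KV) * (q ^ 2 * 3 ^ KV)) := by push_cast; rw [mul_pow]; ring
      _ ≤ T * ((T * Real.log B ^ KV) * Real.log B) := by
          apply mul_le_mul_of_nonneg_left _ hT0'.le
          apply mul_le_mul_of_nonneg_left b2
          positivity
      _ = T * (T * Real.log B ^ (KV + 1)) := by ring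
      _ ≤ T * B := mul_le_mul_of_nonneg_left hTB hT0'.le
      _ ≤ x := by rw [mul_comm]; exact h6
  have hBVx := hBV x (hBX0.trans hxB) (T * q) hD r' h' (by
    intro m _
    simp only [hr']
    split_ifs with h
    · have h5 := (hRr (m / q) h.1).2
      rw [h.2] at h5
      exact h5
    · exact Nat.coprime_one_left m) (by
    intro m
    simp only [hh']
    split_ifs with h
    · have h5 := hVs1 (m / q)
      rw [Finset.mem_range] at h5
      obtain ⟨ha, hb, -⟩ := hSmem _ h.1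
      rw [Int.toNat_le, hx]
      have h6 : (Vs (m / q) : ℤ) ≤ K * B := by exact_mod_cast (by omega : Vs (m / q) ≤ K * B)
      have h7 : ((m / q : ℕ) : ℤ) ≤ T := by exact_mod_cast hb
      have h8 : ((m / q : ℕ) : ℤ) * Vs (m / q) ≤ T * (K * B) :=
        mul_le_mul h7 h6 (by positivity) (by positivity)
      push_cast at h8 ⊢
      have h9 : c ≤ z := by omega
      linarith
    · exact Nat.zero_le _)
  -- the sum of the maximal errors
  set Em : ℕ → ℝ := fun u => |th ((u : ℤ) * Vs u + c).toNat (u * q) (R u) -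
    (((u : ℤ) * Vs u + c).toNat : ℝ) / Nat.totient (u * q)| with hEm
  have hEsum : ∑ u ∈ S, Em u ≤ x / Real.log x ^ 3 := by
    refine le_trans ?_ hBVx
    have hinj : Set.InjOn (fun u : ℕ => u * q) (S : Set ℕ) := by
      intro a _ b _ hab
      exact Nat.eq_of_mul_eq_mul_right (by omega) hab
    have hcong : ∑ u ∈ S, Em u = ∑ m ∈ S.image (fun u => u * q),
        |∑ p ∈ (Icc 1 (h' m)).filter (fun p => p.Prime ∧ p ≡ r' m [MOD m]), Real.log p -
          (h' m : ℝ) / Nat.totient m| := by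
      rw [Finset.sum_image hinj]
      apply Finset.sum_congr rfl
      intro u hu
      have h5 : u * q / q = u := Nat.mul_div_cancel u (by omega)
      have h6 : r' (u * q) = R u := by
        simp only [hr', h5]
        rw [if_pos ⟨hu, trivial⟩]
      have h7 : h' (u * q) = ((u : ℤ) * Vs u + c).toNat := by
        simp only [hh', h5]
        rw [if_pos ⟨hu, trivial⟩]
      rw [h6, h7]
      rfl
    rw [hcong]
    apply Finset.sum_le_sum_of_subset_of_nonneg
    · intro m hm
      rw [Finset.mem_image] at hm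
      obtain ⟨u, hu, rfl⟩ := hm
      obtain ⟨ha, hb, -⟩ := hSmem u hu
      rw [Finset.mem_Icc]
      exact ⟨Nat.mul_pos ha hq, Nat.mul_le_mul_right q hb⟩
    · intro _ _ _; exact abs_nonneg _
  -- the sum of `hh`
  have hHsum : ∑ u ∈ S, hh z u ≤ KH * (((U2 : ℝ) - U1) / (z * q) + Real.log T) := by
    have hnn : 0 ≤ KH * (((U2 : ℝ) - U1) / (z * q) + Real.log T) := by
      have h5 : 0 ≤ (U2 : ℝ) - U1 := by linarith
      have h6 : 0 ≤ Real.log T := Real.log_natCast_nonneg T
      positivity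
    by_cases hU2 : 2 ≤ U2
    · refine (hHZ z q u0 U1 U2 hz hq hqz hU hU2).trans ?_
      apply mul_le_mul_of_nonneg_left _ hKH.le
      have : Real.log U2 ≤ Real.log T :=
        Real.log_le_log (by exact_mod_cast (by omega : 0 < U2)) (by exact_mod_cast hUT)
      linarith
    · have h5 : ∑ u ∈ S, hh z u = 0 := by
        apply Finset.sum_eq_zero
        intro u hu
        rw [hS, Finset.mem_filter, Finset.mem_Ioc] at hu
        have : u = 1 := by omega
        rw [this, hh_one]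
      rw [h5]; exact hnn
  have hScard : (S.card : ℝ) ≤ T := by
    have h5 : S.card ≤ (Ioc U1 U2).card := Finset.card_filter_le _ _
    rw [Nat.card_Ioc] at h5
    exact_mod_cast (by omega : S.card ≤ T)
  have hNB : ((K * B : ℕ) : ℝ) * (Real.log B / B) = K * Real.log B := by
    push_cast
    field_simp
  have htotal : |∑ u ∈ S, ∑ v ∈ (Icc 1 (K * B)).filter (fun v => v ≡ v0 [MOD q]), G v * EE z ((u : ℤ) * v + c)| ≤
      (1 + K * Real.log B) * (∑ u ∈ S, Em u) + (1 + K * Real.log B) * C0 * S.card +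
        W * (K * B) / q * ∑ u ∈ S, hh z u := by
    calc |∑ u ∈ S, ∑ v ∈ (Icc 1 (K * B)).filter (fun v => v ≡ v0 [MOD q]), G v * EE z ((u : ℤ) * v + c)|
        ≤ ∑ u ∈ S, |∑ v ∈ (Icc 1 (K * B)).filter (fun v => v ≡ v0 [MOD q]), G v * EE z ((u : ℤ) * v + c)| :=
          Finset.abs_sum_le_sum_abs _ _
      _ ≤ ∑ u ∈ S, ((1 + K * Real.log B) * (Em u + C0) + W * hh z u * (K * B) / q) := by
          apply Finset.sum_le_sum
          intro u hu
          obtain ⟨ha, hb, hd⟩ := hSmem u hu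
          have h5 := sum_uN (B := B) (K * B) hcz ha hq hPP hqz hd hR (hRr u hu).1 G hG hG' (Em u)
            (fun V hV => hVs2 u V (Finset.mem_range.mpr (by omega)))
          rw [hNB] at h5
          push_cast at h5
          exact h5
      _ = _ := by
          rw [Finset.sum_add_distrib, ← Finset.mul_sum, Finset.sum_add_distrib, Finset.sum_const, nsmul_eq_mul,
            Finset.mul_sum (s := S) (f := fun u => hh z u)]
          have : ∀ u ∈ S, W * hh z u * (K * B) / q = W * (K * B) / q * hh z u := fun u _ => by ring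
          rw [Finset.sum_congr rfl this]
          ring
  -- the error terms
  have hL : 0 < Real.log B := by linarith
  have hKL : 1 + K * Real.log B ≤ (K + 1) * Real.log B := by linarith
  have t1 : (1 + K * Real.log B) * (∑ u ∈ S, Em u) ≤ ε / 4 * (B * T) := by
    have h5 : ∑ u ∈ S, Em u ≤ (K + 1) * (B * T) / Real.log B ^ 3 := by
      refine hEsum.trans ?_
      apply div_le_div₀ (by positivity) hxreal (by positivity)
      exact pow_le_pow_left₀ hlogB0 hxlow 3
    have h6 : (1 + K * Real.log B) * (∑ u ∈ S, Em u) ≤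
        ((K + 1) * Real.log B) * ((K + 1) * (B * T) / Real.log B ^ 3) := by
      apply mul_le_mul hKL h5 (Finset.sum_nonneg (fun u _ => abs_nonneg _)) (by positivity)
    have h7 : ((K + 1) * Real.log B) * ((K + 1) * (B * T) / Real.log B ^ 3) =
        (K + 1) ^ 2 * (B * T) / Real.log B ^ 2 := by
      field_simp
    rw [h7] at h6
    refine h6.trans ?_
    rw [div_le_iff₀ (by positivity)]
    have h8 : 4 * ((K : ℝ) + 1) ^ 2 ≤ ε * Real.log B ^ 2 := by
      have h9 : 4 * ((K : ℝ) + 1) ^ 2 ≤ Real.log B * ε := by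
        rwa [div_le_iff₀ hε] at b3
      calc 4 * ((K : ℝ) + 1) ^ 2 ≤ Real.log B * ε := h9
        _ ≤ Real.log B * ε * Real.log B := le_mul_of_one_le_right (by positivity) b4
        _ = ε * Real.log B ^ 2 := by ring
    have h10 : 0 < (B : ℝ) * T := mul_pos hB0' hT0'
    calc ((K : ℝ) + 1) ^ 2 * ((B : ℝ) * T) = (4 * ((K : ℝ) + 1) ^ 2) * (B * T) / 4 := by ring
      _ ≤ (ε * Real.log B ^ 2) * (B * T) / 4 := by
          have := mul_le_mul_of_nonneg_right h8 h10.le
          linarith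
      _ = ε / 4 * (B * T) * Real.log B ^ 2 := by ring
  have t2 : (1 + K * Real.log B) * C0 * S.card ≤ ε / 4 * (B * T) := by
    calc (1 + K * Real.log B) * C0 * S.card ≤ ((K + 1) * Real.log B) * C0 * T := by
          apply mul_le_mul _ hScard (by positivity) (by positivity)
          exact mul_le_mul_of_nonneg_right hKL hC0p.le
      _ = (4 * (K + 1) * C0 * Real.log B) / 4 * T := by ring
      _ ≤ (ε * B) / 4 * T := by
          apply mul_le_mul_of_nonneg_right _ hT0'.le
          linarith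
      _ = ε / 4 * (B * T) := by ring
  have t3 : W * (K * B) / q * ∑ u ∈ S, hh z u ≤
      KH * K * W / z / (q : ℝ) ^ 2 * (B * ((U2 : ℝ) - U1)) + ε / 4 * (B * T) := by
    have h5 : 0 ≤ W * (K * B) / q := by positivity
    have h6 := hT0 T hTT0
    calc W * (K * B) / q * ∑ u ∈ S, hh z u
        ≤ W * (K * B) / q * (KH * (((U2 : ℝ) - U1) / (z * q) + Real.log T)) :=
          mul_le_mul_of_nonneg_left hHsum h5
      _ = KH * K * W / z / (q : ℝ) ^ 2 * (B * ((U2 : ℝ) - U1)) +
          (4 * K * W * KH * Real.log T) / q * (B / 4) := by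
          field_simp
      _ ≤ KH * K * W / z / (q : ℝ) ^ 2 * (B * ((U2 : ℝ) - U1)) + (ε * T) * (B / 4) := by
          have h7 : (4 * K * W * KH * Real.log T) / q ≤ 4 * K * W * KH * Real.log T := by
            apply div_le_self _ (by exact_mod_cast hq)
            have := Real.log_natCast_nonneg T
            positivity
          have h8 : (4 * K * W * KH * Real.log T) / q * (B / 4) ≤ (ε * T) * (B / 4) :=
            mul_le_mul_of_nonneg_right (h7.trans h6) (by positivity)
          linarith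
      _ = _ := by ring
  refine htotal.trans ?_
  have h10 : 0 < (B : ℝ) * T := mul_pos hB0' hT0'
  have h11 : 0 < ε * ((B : ℝ) * T) := mul_pos hε h10
  linarith

/-! ### The truncation -/

/-- the pairs with `2 u v < B` -/
lemma count_small (B T N : ℕ) : ∑ u ∈ Icc 1 T, (((Icc 1 N).filter (fun v => 2 * (u * v) < B)).card : ℝ) ≤
    B * (1 + Real.log T) := by
  calc ∑ u ∈ Icc 1 T, (((Icc 1 N).filter (fun v => 2 * (u * v) < B)).card : ℝ)
      ≤ ∑ u ∈ Icc 1 T, (B : ℝ) * ((u : ℝ))⁻¹ := by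
        apply Finset.sum_le_sum
        intro u hu
        have hu1 : 1 ≤ u := (Finset.mem_Icc.mp hu).1
        have h1 : (Icc 1 N).filter (fun v => 2 * (u * v) < B) ⊆ Icc 1 (B / u) := by
          intro v hv
          rw [Finset.mem_filter, Finset.mem_Icc] at hv
          rw [Finset.mem_Icc]
          refine ⟨hv.1.1, ?_⟩
          rw [Nat.le_div_iff_mul_le hu1]
          nlinarith [hv.2]
        have h2 := Finset.card_le_card h1
        rw [Nat.card_Icc, Nat.add_sub_cancel] at h2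
        have h3 : ((B / u : ℕ) : ℝ) ≤ (B : ℝ) / u := Nat.cast_div_le
        calc (((Icc 1 N).filter (fun v => 2 * (u * v) < B)).card : ℝ) ≤ ((B / u : ℕ) : ℝ) := by
              exact_mod_cast h2
          _ ≤ (B : ℝ) / u := h3
          _ = _ := by rw [div_eq_mul_inv]
    _ = B * ∑ u ∈ Icc 1 T, ((u : ℝ))⁻¹ := by rw [Finset.mul_sum]
    _ ≤ B * (1 + Real.log T) := by
        apply mul_le_mul_of_nonneg_left _ (Nat.cast_nonneg B)
        have h := harmonic_le_one_add_log T
        rw [harmonic_eq_sum_Icc] at h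
        push_cast at h
        exact h

/-- the pointwise bound -/
lemma EE_le {c : ℤ} {z B n : ℕ} (hB : 2 ≤ B) (hc : c.natAbs ≤ B) (hn : 2 * n < B) :
    |EE z ((n : ℤ) + c)| ≤ 2 * Real.log B + (VW 0 z)⁻¹ := by
  have hB0 : (0 : ℝ) < B := by exact_mod_cast (by omega : 0 < B)
  unfold EE
  have h1 : |N728.QL.lp ((n : ℤ) + c)| ≤ 2 * Real.log B := by
    unfold N728.QL.lp
    split_ifs with hp
    · have hpos : 0 < (n : ℤ) + c := by
        by_contra hcon
        rw [Int.toNat_of_nonpos (by omega)] at hp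
        exact Nat.not_prime_zero hp
      have h2 : (1 : ℝ) ≤ (((n : ℤ) + c : ℤ) : ℝ) := by exact_mod_cast hpos
      rw [abs_of_nonneg (Real.log_nonneg h2)]
      have h3 : (((n : ℤ) + c : ℤ) : ℝ) ≤ (B : ℝ) ^ 2 := by
        have h4 : (n : ℤ) + c ≤ 2 * B := by omega
        have h5 : (((n : ℤ) + c : ℤ) : ℝ) ≤ 2 * B := by exact_mod_cast h4
        have h6 : (2 : ℝ) ≤ B := by exact_mod_cast hB
        nlinarith
      calc Real.log (((n : ℤ) + c : ℤ) : ℝ) ≤ Real.log ((B : ℝ) ^ 2) := Real.log_le_log (by linarith) h3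
        _ = 2 * Real.log B := by rw [Real.log_pow]; norm_num
    · rw [abs_zero]
      have := Real.log_natCast_nonneg B
      positivity
  have h2 : |lz z ((n : ℤ) + c)| ≤ (VW 0 z)⁻¹ := by
    rw [abs_of_nonneg (lz_nonneg z _)]
    exact lz_le z _
  calc |N728.QL.lp ((n : ℤ) + c) - lz z ((n : ℤ) + c)| ≤ |N728.QL.lp ((n : ℤ) + c)| + |lz z ((n : ℤ) + c)| :=
        abs_sub _ _
    _ ≤ _ := add_le_add h1 h2

/-- `log ^ 2` is small -/
lemma log_sq_small (M ε : ℝ) (hε : 0 < ε) : ∀ᶠ B : ℕ in Filter.atTop, M * Real.log B ^ 2 ≤ ε * B := by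
  have h1 : Filter.Tendsto (fun x : ℝ => Real.log x ^ 2 / (1 * x + 0)) Filter.atTop (nhds 0) :=
    Real.tendsto_pow_log_div_mul_add_atTop 1 0 2 one_ne_zero
  have h2 : Filter.Tendsto (fun B : ℕ => Real.log (B : ℝ) ^ 2 / (1 * (B : ℝ) + 0)) Filter.atTop (nhds 0) :=
    h1.comp tendsto_natCast_atTop_atTop
  have h3 : ∀ᶠ B : ℕ in Filter.atTop, Real.log (B : ℝ) ^ 2 / (1 * (B : ℝ) + 0) < ε / (|M| + 1) :=
    h2.eventually_lt_const (by positivity)
  filter_upwards [h3, Filter.eventually_ge_atTop 1] with B hB hB1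
  have hB0 : (0 : ℝ) < B := by exact_mod_cast hB1
  rw [one_mul, add_zero, div_lt_div_iff₀ hB0 (by positivity)] at hB
  have hl : 0 ≤ Real.log B ^ 2 := sq_nonneg _
  have h4 : M * Real.log B ^ 2 ≤ (|M| + 1) * Real.log B ^ 2 :=
    mul_le_mul_of_nonneg_right (by linarith [le_abs_self M]) hl
  linarith

theorem t_B4P (h1 : S_BVH) (h2 : S_HZ) (_h3 : S_MER) : ∀ c : ℤ, c ≠ 0 → S_B4P c := by
  intro c hc
  obtain ⟨C1, Kc, hKc, hC1, hmain⟩ := main_EE h1 h2 c hc
  refine ⟨C1, Kc, hKc, ?_⟩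
  intro K D q z ε hK hD hq hz hcz hε hPP hqz
  obtain ⟨B2, hB2⟩ := hmain K D q z (ε / 2) hK hD hq hz hcz (half_pos hε) hPP hqz
  have hW : 0 < (VW 0 z)⁻¹ := inv_pos.mpr (Pool.Agent.N728.QL.VW_pos 0 z)
  set W := (VW 0 z)⁻¹ with hWdef
  obtain ⟨T0, hT0⟩ := Filter.eventually_atTop.mp (log_sq_small (12 * D ^ 2) ε hε)
  obtain ⟨B3, hB3⟩ := Filter.eventually_atTop.mp ((log_large 1).and (log_large W))
  refine ⟨max B2 (max B3 (max (T0 ^ D + 1) (z + K + 5))), ?_⟩
  intro B hB T hBT hTB U1 U2 u0 v0 G hU hUT hG hG'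
  have hBB2 : B2 ≤ B := (le_max_left _ _).trans hB
  have hBB3 : B3 ≤ B := ((le_max_left _ _).trans (le_max_right _ _)).trans hB
  have hBT0 : T0 ^ D + 1 ≤ B :=
    (((le_max_left _ _).trans (le_max_right _ _)).trans (le_max_right _ _)).trans hB
  have hBz : z + K + 5 ≤ B :=
    (((le_max_right _ _).trans (le_max_right _ _)).trans (le_max_right _ _)).trans hB
  obtain ⟨b1, b2⟩ := hB3 B hBB3
  have hTpos : 1 ≤ T := by
    rcases Nat.eq_zero_or_pos T with h | h
    · subst h
      rw [zero_pow (by omega)] at hBT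
      omega
    · exact h
  have hTT0 : T0 ≤ T := by
    by_contra hcon
    have : T ^ D ≤ T0 ^ D := Nat.pow_le_pow_left (by omega) D
    omega
  have hB0' : (0 : ℝ) < B := by exact_mod_cast (by omega : 0 < B)
  have hT1' : (1 : ℝ) ≤ T := by exact_mod_cast hTpos
  have hT0' : (0 : ℝ) < T := by linarith
  have hlT : 0 ≤ Real.log T := Real.log_natCast_nonneg T
  have hTleB : (T : ℝ) ≤ B := by
    refine le_trans ?_ hTB
    exact le_mul_of_one_le_right hT0'.le (one_le_pow₀ b1)
  have hTleB' : T ≤ B := by exact_mod_cast hTleB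
  have hlTB : Real.log T ≤ Real.log B := Real.log_le_log hT0' hTleB
  have hlBT : Real.log B ≤ D * Real.log T := by
    have : (B : ℝ) ≤ (T : ℝ) ^ D := by exact_mod_cast hBT
    calc Real.log B ≤ Real.log ((T : ℝ) ^ D) := Real.log_le_log hB0' this
      _ = D * Real.log T := by rw [Real.log_pow]
  -- the truncation
  have htr : ∀ u ∈ (Ioc U1 U2).filter (fun u => u ≡ u0 [MOD q]),
      ∀ v ∈ (Icc 1 (K * B)).filter (fun v => v ≡ v0 [MOD q]),
      G v * EP c z B (u * v) = G v * EE z ((u : ℤ) * v + c) -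
        (if 2 * (u * v) < B then G v * EE z ((u : ℤ) * v + c) else 0) := by
    intro u hu v hv
    rw [Finset.mem_filter, Finset.mem_Ioc] at hu
    rw [Finset.mem_filter, Finset.mem_Icc] at hv
    have h3 : u * v ≤ B ^ 3 := by
      calc u * v ≤ T * (K * B) := Nat.mul_le_mul (by omega) hv.1.2
        _ ≤ B * (B * B) := Nat.mul_le_mul hTleB' (Nat.mul_le_mul_right B (by omega))
        _ = B ^ 3 := by ring
    have h4 : (((u * v : ℕ) : ℤ) + c) = (u : ℤ) * v + c := by push_cast; ring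
    unfold EP
    rw [h4]
    by_cases h5 : 2 * (u * v) < B
    · rw [if_neg (by omega), if_pos h5]; ring
    · rw [if_pos ⟨by omega, h3⟩, if_neg h5]; ring
  have hsplit : ∑ u ∈ (Ioc U1 U2).filter (fun u => u ≡ u0 [MOD q]),
      ∑ v ∈ (Icc 1 (K * B)).filter (fun v => v ≡ v0 [MOD q]), G v * EP c z B (u * v) =
      ∑ u ∈ (Ioc U1 U2).filter (fun u => u ≡ u0 [MOD q]),
      ∑ v ∈ (Icc 1 (K * B)).filter (fun v => v ≡ v0 [MOD q]), G v * EE z ((u : ℤ) * v + c) -
      ∑ u ∈ (Ioc U1 U2).filter (fun u => u ≡ u0 [MOD q]),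
      ∑ v ∈ (Icc 1 (K * B)).filter (fun v => v ≡ v0 [MOD q]),
        (if 2 * (u * v) < B then G v * EE z ((u : ℤ) * v + c) else 0) := by
    rw [← Finset.sum_sub_distrib]
    apply Finset.sum_congr rfl
    intro u hu
    rw [← Finset.sum_sub_distrib]
    apply Finset.sum_congr rfl
    intro v hv
    exact htr u hu v hv
  have hsmall : |∑ u ∈ (Ioc U1 U2).filter (fun u => u ≡ u0 [MOD q]),
      ∑ v ∈ (Icc 1 (K * B)).filter (fun v => v ≡ v0 [MOD q]),
        (if 2 * (u * v) < B then G v * EE z ((u : ℤ) * v + c) else 0)| ≤ ε / 2 * (B * T) := by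
    calc |∑ u ∈ (Ioc U1 U2).filter (fun u => u ≡ u0 [MOD q]),
          ∑ v ∈ (Icc 1 (K * B)).filter (fun v => v ≡ v0 [MOD q]),
          (if 2 * (u * v) < B then G v * EE z ((u : ℤ) * v + c) else 0)|
        ≤ ∑ u ∈ (Ioc U1 U2).filter (fun u => u ≡ u0 [MOD q]),
          ∑ v ∈ (Icc 1 (K * B)).filter (fun v => v ≡ v0 [MOD q]),
          (if 2 * (u * v) < B then (2 * Real.log B + W) else 0) := by
          refine (Finset.abs_sum_le_sum_abs _ _).trans (Finset.sum_le_sum ?_)
          intro u hu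
          refine (Finset.abs_sum_le_sum_abs _ _).trans (Finset.sum_le_sum ?_)
          intro v hv
          split_ifs with h5
          · rw [abs_mul]
            have h6 : |EE z ((u : ℤ) * v + c)| ≤ 2 * Real.log B + W := by
              have h7 := EE_le (c := c) (z := z) (B := B) (n := u * v) (by omega) (by omega) h5
              have h4 : (((u * v : ℕ) : ℤ) + c) = (u : ℤ) * v + c := by push_cast; ring
              rw [h4] at h7
              exact h7
            calc |G v| * |EE z ((u : ℤ) * v + c)| ≤ 1 * (2 * Real.log B + W) :=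
                  mul_le_mul (hG v) h6 (abs_nonneg _) zero_le_one
              _ = _ := one_mul _
          · rw [abs_zero]
      _ ≤ ∑ u ∈ Icc 1 T, ∑ v ∈ Icc 1 (K * B), (if 2 * (u * v) < B then (2 * Real.log B + W) else 0) := by
          have hnn : 0 ≤ 2 * Real.log B + W := by linarith
          refine (Finset.sum_le_sum (fun u _ => Finset.sum_le_sum_of_subset_of_nonneg
            (Finset.filter_subset _ _) (fun v _ _ => ?_))).trans
            (Finset.sum_le_sum_of_subset_of_nonneg ?_ (fun u _ _ => Finset.sum_nonneg (fun v _ => ?_)))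
          · split_ifs
            · exact hnn
            · exact le_rfl
          · intro u hu
            rw [Finset.mem_filter, Finset.mem_Ioc] at hu
            rw [Finset.mem_Icc]
            omega
          · split_ifs
            · exact hnn
            · exact le_rfl
      _ = (∑ u ∈ Icc 1 T, (((Icc 1 (K * B)).filter (fun v => 2 * (u * v) < B)).card : ℝ)) *
          (2 * Real.log B + W) := by
          rw [Finset.sum_mul]
          apply Finset.sum_congr rfl
          intro u _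
          rw [← Finset.sum_filter, Finset.sum_const, nsmul_eq_mul]
      _ ≤ (B * (1 + Real.log T)) * (2 * Real.log B + W) :=
          mul_le_mul_of_nonneg_right (count_small B T (K * B)) (by linarith)
      _ ≤ (B * (2 * Real.log B)) * (3 * Real.log B) := by
          apply mul_le_mul _ (by linarith) (by linarith) (by positivity)
          apply mul_le_mul_of_nonneg_left _ hB0'.le
          linarith
      _ = B * (6 * Real.log B ^ 2) := by ring
      _ ≤ B * (6 * (D * Real.log T) ^ 2) := by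
          apply mul_le_mul_of_nonneg_left _ hB0'.le
          apply mul_le_mul_of_nonneg_left _ (by norm_num)
          exact pow_le_pow_left₀ (by linarith) hlBT 2
      _ = B * ((12 * D ^ 2 * Real.log T ^ 2) / 2) := by ring
      _ ≤ B * ((ε * T) / 2) := by
          apply mul_le_mul_of_nonneg_left _ hB0'.le
          have := hT0 T hTT0
          linarith
      _ = ε / 2 * (B * T) := by ring
  have hbig := hB2 B hBB2 T hBT hTB U1 U2 u0 v0 G hU hUT hG hG'
  rw [hsplit]
  refine (abs_sub _ _).trans ?_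
  refine (add_le_add hbig hsmall).trans (le_of_eq ?_)
  ring

end

end Pool.Agent.N97.QG
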